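import Pool.Agent.H32.RK.TargetsE

/-!
# (CUW) many disjoint polydiscs at an infinite place
-/

set_option autoImplicit false

open Finset NumberField Pool.Agent.H32.RQ Pool.Agent.H32.RK

namespace Pool.Agent.H52.RK

section maps

variable {R S : Type} [CommRing R] [CommRing S] {s : ℕ}

theorem qf_map (φ : R →+* S) (f : Mon s → R) (x : Fin s → R) :
    qf (fun p => φ (f p)) (fun j => φ (x j)) = φ (qf f x) := by
  unfold qf
  rw [map_sum]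
  refine Finset.sum_congr rfl fun p _ => ?_
  rw [map_mul, map_mul]

theorem dq_map (φ : R →+* S) (f : Mon s → R) (x : Fin s → R) (j : Fin s) :
    dq (fun p => φ (f p)) (fun j => φ (x j)) j = φ (dq f x j) := by
  unfold dq
  rw [map_sum]
  refine Finset.sum_congr rfl fun p _ => ?_
  rw [map_mul, map_add]
  split_ifs <;> simp

theorem jm_map (φ : R →+* S) (F : Fin 2 → Mon s → R) (x : Fin s → R) (j l : Fin s) :
    jm (fun i p => φ (F i p)) (fun j => φ (x j)) j l = φ (jm F x j l) := by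
  unfold jm
  rw [map_sub, map_mul, map_mul, dq_map φ (F 0) x j, dq_map φ (F 1) x l, dq_map φ (F 0) x l,
    dq_map φ (F 1) x j]

theorem qf_mul (a : R) (f : Mon s → R) (x : Fin s → R) :
    qf (fun p => a * f p) x = a * qf f x := by
  unfold qf
  rw [Finset.mul_sum]
  exact Finset.sum_congr rfl fun p _ => by ring

theorem dq_mul (a : R) (f : Mon s → R) (x : Fin s → R) (j : Fin s) :
    dq (fun p => a * f p) x j = a * dq f x j := by
  unfold dq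
  rw [Finset.mul_sum]
  exact Finset.sum_congr rfl fun p _ => by ring

theorem jm_mul (a : R) (F : Fin 2 → Mon s → R) (x : Fin s → R) (j l : Fin s) :
    jm (fun i p => a * F i p) x j l = a ^ 2 * jm F x j l := by
  unfold jm
  rw [dq_mul a (F 0) x j, dq_mul a (F 1) x l, dq_mul a (F 0) x l, dq_mul a (F 1) x j]
  ring

end maps

/-- the conclusion of (CUB) for given parameters -/
def CU (𝕜 : Type) [RCLike 𝕜] (e s : ℕ) (d r c₁ : ℝ) : Prop :=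
  ∀ (f : Fin 2 → Mon s → 𝕜) (x : Fin s → 𝕜), (∀ i p, ‖f i p‖ ≤ 1) →
    (∀ j, ‖x j‖ ≤ 1) → (∃ j, ‖x j‖ = 1) → (∀ i, ‖qf (f i) x‖ ≤ r) →
    (∃ j l, d ≤ ‖jm f x j l‖) →
    ∀ ρ : ℝ, 0 < ρ → ρ ≤ c₁ → ∃ Y : Finset (Fin s → 𝕜),
      (c₁ / ρ) ^ (e * (s - 2)) ≤ (Y.card : ℝ) ∧
      (∀ y ∈ Y, (∀ i, qf (f i) y = 0) ∧ (∀ j, ‖y j‖ ≤ 7 / 8) ∧ ∃ j, 5 / 8 ≤ ‖y j‖) ∧
      ∀ y ∈ Y, ∀ y' ∈ Y, y ≠ y' → ∃ j, 2 * ρ < ‖y j - y' j‖

/-- a small change of the vector -/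
theorem near {s : ℕ} {B ρ : ℝ} (g : Mon s → ℂ) (y z : Fin s → ℂ) (hB : 0 ≤ B)
    (hg : ∀ p, ‖g p‖ ≤ B) (hy : ∀ j, ‖y j‖ ≤ 1) (hz : ∀ j, ‖z j‖ ≤ 1)
    (hyz : ∀ j, ‖z j - y j‖ ≤ ρ) (h0 : qf g y = 0) : ‖qf g z‖ ≤ (md s : ℝ) * (B * (2 * ρ)) := by
  have h1 : qf g z = ∑ p : Mon s, g p *
      ((z p.1.1 - y p.1.1) * z p.1.2 + y p.1.1 * (z p.1.2 - y p.1.2)) := by
    have h2 : qf g z = qf g z - qf g y := by rw [h0, sub_zero]
    rw [h2]
    unfold qf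
    rw [← Finset.sum_sub_distrib]
    exact Finset.sum_congr rfl fun p _ => by ring
  rw [h1]
  have h3 : ∀ p : Mon s, ‖g p * ((z p.1.1 - y p.1.1) * z p.1.2 + y p.1.1 * (z p.1.2 - y p.1.2))‖
      ≤ B * (2 * ρ) := by
    intro p
    have hρ : 0 ≤ ρ := (norm_nonneg _).trans (hyz p.1.1)
    rw [norm_mul]
    refine mul_le_mul (hg p) ?_ (norm_nonneg _) hB
    have h4 : ‖(z p.1.1 - y p.1.1) * z p.1.2‖ ≤ ρ * 1 := by
      rw [norm_mul]
      exact mul_le_mul (hyz _) (hz _) (norm_nonneg _) hρ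
    have h5 : ‖y p.1.1 * (z p.1.2 - y p.1.2)‖ ≤ 1 * ρ := by
      rw [norm_mul]
      exact mul_le_mul (hy _) (hyz _) (norm_nonneg _) zero_le_one
    have h6 := norm_add_le ((z p.1.1 - y p.1.1) * z p.1.2) (y p.1.1 * (z p.1.2 - y p.1.2))
    linarith
  calc ‖∑ p : Mon s, g p * ((z p.1.1 - y p.1.1) * z p.1.2 + y p.1.1 * (z p.1.2 - y p.1.2))‖
      ≤ ∑ p : Mon s, ‖g p * ((z p.1.1 - y p.1.1) * z p.1.2 + y p.1.1 * (z p.1.2 - y p.1.2))‖ :=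
        norm_sum_le _ _
    _ ≤ ∑ _p : Mon s, B * (2 * ρ) := Finset.sum_le_sum fun p _ => h3 p
    _ = (md s : ℝ) * (B * (2 * ρ)) := by
        rw [Finset.sum_const, nsmul_eq_mul, Finset.card_univ]

/-- both kinds of places together -/
theorem core (𝕜 : Type) [RCLike 𝕜] (φ : 𝕜 →+* ℂ) (hφ : ∀ a, ‖φ a‖ = ‖a‖) {e s : ℕ}
    {d C₁ r r₀ c₁ c₀ : ℝ} (hmd : 2 * md s = s * (s + 1)) (hC₁ : 1 ≤ C₁)
    (hCU : CU 𝕜 e s (d / C₁ ^ 2) r c₁) (hr : r₀ ≤ r) (hc : c₀ ≤ c₁) (hc0 : 0 < c₀)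
    (hc16 : c₀ ≤ 1 / 16) {A : ℕ} (hA : 1 ≤ A)
    (g : Fin 2 → Mon s → 𝕜) (hg : ∀ i p, ‖g i p‖ ≤ C₁ * A) (x : Fin s → 𝕜)
    (hx1 : ∀ j, ‖x j‖ ≤ 1) (hx2 : ∃ j, ‖x j‖ = 1) (hx3 : ∀ i, ‖qf (g i) x‖ ≤ C₁ * r₀ * A)
    (hx4 : ∃ j l, d * (A : ℝ) ^ 2 ≤ ‖jm g x j l‖) {ρ : ℝ} (hρ : 0 < ρ) (hρc : ρ ≤ c₀) :
    ∃ Y : Finset (Fin s → ℂ), (c₀ / ρ) ^ (e * (s - 2)) ≤ (Y.card : ℝ) ∧
      (∀ y ∈ Y, (∃ y' : Fin s → 𝕜, y = fun j => φ (y' j)) ∧ ∀ z : Fin s → ℂ,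
        (∀ j, ‖z j - y j‖ ≤ ρ) → (∀ j, ‖z j‖ ≤ 1) ∧ (∃ j, 1 / 2 < ‖z j‖) ∧
          ∀ i, ‖qf (fun p => φ (g i p)) z‖ ≤ C₁ * A * (s * (s + 1)) * ρ) ∧
      ∀ y ∈ Y, ∀ y' ∈ Y, y ≠ y' → ∃ j, 2 * ρ < ‖y j - y' j‖ := by
  classical
  have hA' : (1 : ℝ) ≤ A := by exact_mod_cast hA
  have hq : 0 < C₁ * (A : ℝ) := by positivity
  set q : 𝕜 := ((C₁ * (A : ℝ) : ℝ) : 𝕜) with hqdef
  have hqn : ‖q‖ = C₁ * A := by rw [hqdef, RCLike.norm_ofReal, abs_of_pos hq]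
  have hq0 : q ≠ 0 := by
    intro h
    rw [h, norm_zero] at hqn
    exact hq.ne hqn
  have h1 : ∀ i p, ‖q⁻¹ * g i p‖ ≤ 1 := by
    intro i p
    rw [norm_mul, norm_inv, hqn, inv_mul_le_iff₀ hq, mul_one]
    exact hg i p
  have h2 : ∀ i, ‖qf (fun p => q⁻¹ * g i p) x‖ ≤ r := by
    intro i
    rw [qf_mul, norm_mul, norm_inv, hqn, inv_mul_le_iff₀ hq]
    refine (hx3 i).trans ?_
    calc C₁ * r₀ * A = C₁ * A * r₀ := by ring
      _ ≤ C₁ * A * r := mul_le_mul_of_nonneg_left hr hq.le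
  have h3 : ∃ j l, d / C₁ ^ 2 ≤ ‖jm (fun i p => q⁻¹ * g i p) x j l‖ := by
    obtain ⟨j, l, hjl⟩ := hx4
    refine ⟨j, l, ?_⟩
    rw [jm_mul, norm_mul, norm_pow, norm_inv, hqn, inv_pow]
    rw [le_inv_mul_iff₀ (by positivity)]
    calc (C₁ * (A : ℝ)) ^ 2 * (d / C₁ ^ 2) = d * (A : ℝ) ^ 2 := by
          field_simp
      _ ≤ _ := hjl
  obtain ⟨Y, hY1, hY2, hY3⟩ := hCU _ x h1 hx1 hx2 h2 h3 ρ hρ (hρc.trans hc)
  have hinj : Function.Injective fun (y : Fin s → 𝕜) j => φ (y j) := by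
    intro y y' h
    funext j
    exact φ.injective (congrFun h j)
  refine ⟨Y.image fun y j => φ (y j), ?_, ?_, ?_⟩
  · rw [Finset.card_image_of_injective _ hinj]
    refine le_trans (pow_le_pow_left₀ (by positivity) ?_ _) hY1
    exact div_le_div_of_nonneg_right hc hρ.le
  · intro y hy
    rw [Finset.mem_image] at hy
    obtain ⟨y', hy', rfl⟩ := hy
    refine ⟨⟨y', rfl⟩, fun z hz => ?_⟩
    obtain ⟨ha, hb, j₀, hj₀⟩ := hY2 y' hy'
    have hzu : ∀ j, ‖z j‖ ≤ 1 := by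
      intro j
      have h4 := hz j
      have h5 := norm_add_le (z j - φ (y' j)) (φ (y' j))
      rw [sub_add_cancel, hφ] at h5
      have h6 := hb j
      linarith
    refine ⟨hzu, ⟨j₀, ?_⟩, fun i => ?_⟩
    · have h4 := hz j₀
      have h5 := norm_sub_norm_le (φ (y' j₀)) (z j₀)
      rw [norm_sub_rev, hφ] at h5
      linarith
    · have h0 : qf (fun p => φ (g i p)) (fun j => φ (y' j)) = 0 := by
        rw [qf_map]
        have h7 := ha i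
        rw [qf_mul] at h7
        rcases mul_eq_zero.1 h7 with h8 | h8
        · exact absurd h8 (inv_ne_zero hq0)
        · rw [h8, map_zero]
      have h8 := near (fun p => φ (g i p)) (fun j => φ (y' j)) z hq.le
        (fun p => by rw [hφ]; exact hg i p) (fun j => by rw [hφ]; linarith [hb j]) hzu hz h0
      refine h8.trans (le_of_eq ?_)
      have h9 : (2 : ℝ) * (md s : ℝ) = s * (s + 1) := by exact_mod_cast hmd
      calc (md s : ℝ) * (C₁ * A * (2 * ρ)) = C₁ * A * (2 * (md s : ℝ)) * ρ := by ring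
        _ = C₁ * A * (s * (s + 1)) * ρ := by rw [h9]
  · intro y hy y' hy' hne
    rw [Finset.mem_image] at hy hy'
    obtain ⟨u, hu, rfl⟩ := hy
    obtain ⟨v, hv, rfl⟩ := hy'
    obtain ⟨j, hj⟩ := hY3 u hu v hv (fun h => hne (by rw [h]))
    refine ⟨j, ?_⟩
    rw [← map_sub, hφ]
    exact hj

theorem pf_CUW (K : Type) [Field K] [NumberField K] (hCUB : T_CUB) (hSEP : T_SEP)
    (hCRD : T_CRD) : T_CUW K := by
  intro s d C₁ hd hC₁
  have hd' : 0 < d / C₁ ^ 2 := by positivity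
  obtain ⟨r₁, c₁, hr₁, hc₁, hU1⟩ := hCUB ℝ 1 s (d / C₁ ^ 2) hSEP.1 hd'
  obtain ⟨r₂, c₂, hr₂, hc₂, hU2⟩ := hCUB ℂ 2 s (d / C₁ ^ 2) hSEP.2 hd'
  have hmd : 2 * md s = s * (s + 1) := (hCRD Unit s 0).1
  set r₀ := min r₁ r₂ with hr₀
  set c₀ := min (min c₁ c₂) (1 / 16) with hc₀
  have hr0 : 0 < r₀ := lt_min hr₁ hr₂
  have hc0 : 0 < c₀ := lt_min (lt_min hc₁ hc₂) (by norm_num)
  have hc16 : c₀ ≤ 1 / 16 := min_le_right _ _
  refine ⟨C₁ * r₀, c₀, by positivity, hc0, ?_⟩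
  intro w A c hA hcA hRB ρ hρ hρc
  obtain ⟨x, hxR, hx1, hx2, hx3, hx4⟩ := hRB
  by_cases hw : w.IsReal
  · -- a real place
    set σ := w.embedding_of_isReal hw with hσ
    have hσc : ∀ a : K, ((σ a : ℝ) : ℂ) = w.embedding a := fun a =>
      InfinitePlace.embedding_of_isReal_apply hw a
    have hφ : ∀ a : ℝ, ‖Complex.ofRealHom a‖ = ‖a‖ := fun a => Complex.norm_real a
    set x' : Fin s → ℝ := fun j => (x j).re with hx'
    have hxx : x = fun j => Complex.ofRealHom (x' j) := by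
      funext j
      apply Complex.ext
      · simp [hx']
      · simp [hxR hw j]
    have hce : ce w c = fun i p => Complex.ofRealHom (σ (c i p)) := by
      funext i p
      exact (hσc _).symm
    have hgn : ∀ i p, ‖σ (c i p : K)‖ ≤ C₁ * A := by
      intro i p
      rw [← hφ]
      have h1 : Complex.ofRealHom (σ (c i p : K)) = w.embedding (c i p : K) := hσc _
      rw [h1, InfinitePlace.norm_embedding_eq]
      exact hcA i p
    have hxn : ∀ j, ‖x' j‖ = ‖x j‖ := fun j => by rw [hxx, hφ]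
    obtain ⟨Y, hY1, hY2, hY3⟩ := core ℝ Complex.ofRealHom hφ hmd hC₁ hU1 (min_le_left r₁ r₂)
      ((min_le_left (min c₁ c₂) (1 / 16)).trans (min_le_left c₁ c₂)) hc0 hc16 hA
      (fun i p => σ (c i p : K)) hgn x' (fun j => by rw [hxn]; exact hx1 j)
      (by obtain ⟨j, hj⟩ := hx2; exact ⟨j, by rw [hxn]; exact hj⟩)
      (fun i => by
        have h1 := hx3 i
        rw [hxx, hce] at h1
        rw [qf_map Complex.ofRealHom (fun p => σ (c i p : K)) x', hφ] at h1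
        exact h1)
      (by
        obtain ⟨j, l, hjl⟩ := hx4
        rw [hxx, hce, jm_map Complex.ofRealHom (fun i p => σ (c i p : K)) x', hφ] at hjl
        exact ⟨j, l, hjl⟩) hρ hρc
    have hm : w.mult = 1 := by simp [InfinitePlace.mult, hw]
    refine ⟨Y, by rw [hm]; exact hY1, ?_, hY3⟩
    intro y hy
    obtain ⟨⟨y', hy'⟩, h2⟩ := hY2 y hy
    refine ⟨fun _ j => by rw [hy']; simp, fun z hz => ?_⟩
    rw [hce]
    exact h2 z hz
  · -- a complex place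
    have hφ : ∀ a : ℂ, ‖RingHom.id ℂ a‖ = ‖a‖ := fun a => rfl
    have hgn : ∀ i p, ‖ce w c i p‖ ≤ C₁ * A := by
      intro i p
      unfold ce
      rw [InfinitePlace.norm_embedding_eq]
      exact hcA i p
    obtain ⟨Y, hY1, hY2, hY3⟩ := core ℂ (RingHom.id ℂ) hφ hmd hC₁ hU2 (min_le_right r₁ r₂)
      ((min_le_left (min c₁ c₂) (1 / 16)).trans (min_le_right c₁ c₂)) hc0 hc16 hA
      (ce w c) hgn x hx1 hx2 hx3 hx4 hρ hρc
    have hm : w.mult = 2 := by simp [InfinitePlace.mult, hw]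
    refine ⟨Y, by rw [hm]; exact hY1, ?_, hY3⟩
    intro y hy
    refine ⟨fun h => absurd h hw, (hY2 y hy).2⟩

end Pool.Agent.H52.RK
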