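import Pool.Agent.H32.RK.TargetsA
import Pool.Agent.H32.RK.TargetsE

/-!
# (SIE) primitive integral vectors in a polydisc and a residue class
-/

set_option autoImplicit false

open Finset NumberField Pool.Agent.H32.RQ Pool.Agent.H32.RK

namespace Pool.Agent.H52.RK

/-- a vector which is not primitive lies in a maximal ideal -/
theorem exists_max {R : Type} [CommRing R] {s : ℕ} {x : Fin s → R} (h : ¬ Prm x) :
    ∃ 𝔭 : Ideal R, 𝔭.IsMaximal ∧ ∀ j, x j ∈ 𝔭 := by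
  have h1 : Ideal.span (Set.range x) ≠ ⊤ := by
    intro h1
    apply h
    have h3 : (1 : R) ∈ Ideal.span (Set.range x) := by
      rw [h1]
      trivial
    rw [Ideal.mem_span_range_iff_exists_fun] at h3
    obtain ⟨c, hc⟩ := h3
    exact ⟨c, hc⟩
  obtain ⟨M, hM, hle⟩ := Ideal.exists_le_maximal _ h1
  exact ⟨M, hM, fun j => hle (Ideal.subset_span ⟨j, rfl⟩)⟩

section

variable {K : Type} [Field K] [NumberField K]

theorem place_nat (w : InfinitePlace K) (n : ℕ) : w (n : K) = n := by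
  rw [← InfinitePlace.norm_embedding_eq, map_natCast, Complex.norm_natCast]

theorem nm_nat (hNRM : T_NRM K) (n : ℕ) : nm ((n : ℕ) : K) = (n : ℝ) ^ dg K := by
  rw [← hNRM.2.2.2.1 (n : ℝ)]
  unfold nm
  congr 1
  funext w
  exact place_nat w n

/-- the residue class is primitive -/
theorem lift_prm {W : ℕ} {s : ℕ} {a : Fin s → 𝓞 K}
    (ha : Prm (fun j => Ideal.Quotient.mk (Ideal.span {(W : 𝓞 K)}) (a j))) :
    ∃ b : Fin s → 𝓞 K, ∑ j, b j * a j - 1 ∈ Ideal.span {(W : 𝓞 K)} := by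
  obtain ⟨b, hb⟩ := ha
  choose b' hb' using fun j => Ideal.Quotient.mk_surjective (b j)
  refine ⟨b', ?_⟩
  rw [← Ideal.Quotient.eq_zero_iff_mem, map_sub, map_sum, map_one, sub_eq_zero, ← hb]
  refine Finset.sum_congr rfl fun j _ => ?_
  rw [map_mul, hb']

/-- an ideal which contains the class and the modulus is the unit ideal -/
theorem class_top {W : ℕ} {s : ℕ} {a b x : Fin s → 𝓞 K} {𝔭 : Ideal (𝓞 K)}
    (hb : ∑ j, b j * a j - 1 ∈ Ideal.span {(W : 𝓞 K)}) (hx : ∀ j, ∃ y : 𝓞 K, x j = a j + W * y)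
    (hW : (W : 𝓞 K) ∈ 𝔭) (hxp : ∀ j, x j ∈ 𝔭) : (1 : 𝓞 K) ∈ 𝔭 := by
  have h1 : ∀ j, a j ∈ 𝔭 := by
    intro j
    obtain ⟨y, hy⟩ := hx j
    have h2 : a j = x j - W * y := by rw [hy]; ring
    rw [h2]
    exact 𝔭.sub_mem (hxp j) (𝔭.mul_mem_right _ hW)
  have h2 : ∑ j, b j * a j ∈ 𝔭 := 𝔭.sum_mem fun j _ => 𝔭.mul_mem_left _ (h1 j)
  have h3 : ∑ j, b j * a j - 1 ∈ 𝔭 := by
    have h4 : Ideal.span {(W : 𝓞 K)} ≤ 𝔭 := by
      rw [Ideal.span_singleton_le_iff_mem]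
      exact hW
    exact h4 hb
  have h4 : (1 : 𝓞 K) = ∑ j, b j * a j - (∑ j, b j * a j - 1) := by ring
  rw [h4]
  exact 𝔭.sub_mem h2 h3

/-- the modulus is not a unit -/
theorem not_unit (hNRM : T_NRM K) {W w : ℕ} (hw : 2 ^ dg K ≤ w)
    (hW : ∀ 𝔭 : Ideal (𝓞 K), 𝔭.IsPrime → 𝔭 ≠ ⊥ → Ideal.absNorm 𝔭 ≤ w → (W : 𝓞 K) ∈ 𝔭) :
    (1 : 𝓞 K) ∉ Ideal.span {(W : 𝓞 K)} := by
  intro h1
  have hd : 0 < dg K := Module.finrank_pos
  have h2n : nm ((2 : ℕ) : K) = (2 : ℝ) ^ dg K := by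
    have := nm_nat hNRM (K := K) 2
    exact_mod_cast this
  have h2e : ((2 : 𝓞 K) : K) = ((2 : ℕ) : K) := by
    rw [Nat.cast_ofNat]
    exact map_ofNat (algebraMap (𝓞 K) K) 2
  have h2 : Ideal.span {(2 : 𝓞 K)} ≠ ⊤ := by
    intro h2
    have h3 := hNRM.2.1 (2 : 𝓞 K)
    rw [h2, h2e, h2n, Ideal.absNorm_top, Nat.cast_one] at h3
    have h4 : (1 : ℝ) < 2 ^ dg K := one_lt_pow₀ (by norm_num) hd.ne'
    linarith
  obtain ⟨𝔮, h𝔮, hle⟩ := Ideal.exists_le_maximal _ h2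
  have h2q : (2 : 𝓞 K) ∈ 𝔮 := hle (Ideal.mem_span_singleton_self _)
  have hq0 : 𝔮 ≠ ⊥ := Ring.ne_bot_of_isMaximal_of_not_isField h𝔮 (RingOfIntegers.not_isField K)
  have h3 := hNRM.1 𝔮 2 h2q two_ne_zero
  rw [h2e, h2n] at h3
  have h4 : Ideal.absNorm 𝔮 ≤ 2 ^ dg K := by exact_mod_cast h3
  have h5 := hW 𝔮 h𝔮.isPrime hq0 (h4.trans hw)
  have h6 : Ideal.span {(W : 𝓞 K)} ≤ 𝔮 := by
    rw [Ideal.span_singleton_le_iff_mem]
    exact h5
  exact h𝔮.ne_top ((Ideal.eq_top_iff_one _).2 (h6 h1))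

/-- the number of the elements of a prime ideal in a polydisc and a residue class -/
theorem one_coord (hNRM : T_NRM K) {C : ℝ} (hLAT : ∀ (T : Finset K) (D : InfinitePlace K → ℝ)
    (ν : ℝ), 0 < ν → (∀ w, 0 < D w) → (∀ t ∈ T, ∀ t' ∈ T, t ≠ t' →
      (∀ w : InfinitePlace K, w (t - t') ≤ D w) ∧ ν ≤ nm (t - t')) →
    (T.card : ℝ) ≤ C * (1 + pm D / ν)) {W : ℕ} (hW : 1 ≤ W) {L : ℝ} (hL : 0 < L)
    {ζ : InfinitePlace K → ℂ} {a : 𝓞 K} (S : Finset (𝓞 K))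
    (hS1 : ∀ x ∈ S, ∃ y : 𝓞 K, x = a + W * y)
    (hS2 : ∀ x ∈ S, ∀ w : InfinitePlace K, ‖w.embedding (x : K) - ζ w‖ ≤ L)
    {𝔭 : Ideal (𝓞 K)} (h𝔭 : 𝔭.IsPrime) (h𝔭0 : 𝔭 ≠ ⊥) (hW𝔭 : (W : 𝓞 K) ∉ 𝔭)
    (hSp : ∀ x ∈ S, x ∈ 𝔭) :
    (S.card : ℝ) ≤ C * (1 + 2 ^ dg K * ((L / W) ^ dg K / (Ideal.absNorm 𝔭 : ℝ))) := by
  classical
  have hW' : (0 : ℝ) < W := by exact_mod_cast hW
  have hN : (0 : ℝ) < Ideal.absNorm 𝔭 := by
    have h1 : Ideal.absNorm 𝔭 ≠ 0 := by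
      rw [Ne, Ideal.absNorm_eq_zero_iff]
      exact h𝔭0
    exact_mod_cast Nat.pos_of_ne_zero h1
  have hinj : Function.Injective fun x : 𝓞 K => (x : K) := RingOfIntegers.coe_injective
  have h1 := hLAT (S.image fun x : 𝓞 K => (x : K)) (fun _ => 2 * L)
    ((W : ℝ) ^ dg K * Ideal.absNorm 𝔭) (by positivity) (fun _ => by positivity) (by
      intro t ht t' ht' hne
      rw [Finset.mem_image] at ht ht'
      obtain ⟨x, hx, rfl⟩ := ht
      obtain ⟨x', hx', rfl⟩ := ht'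
      have hxx : x ≠ x' := fun h => hne (by rw [h])
      constructor
      · intro w
        rw [← InfinitePlace.norm_embedding_eq, map_sub]
        have h2 := hS2 x hx w
        have h3 := hS2 x' hx' w
        have h4 : w.embedding (x : K) - w.embedding (x' : K) =
            (w.embedding (x : K) - ζ w) - (w.embedding (x' : K) - ζ w) := by ring
        rw [h4]
        have h5 := norm_sub_le (w.embedding (x : K) - ζ w) (w.embedding (x' : K) - ζ w)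
        linarith
      · obtain ⟨y, hy⟩ := hS1 x hx
        obtain ⟨y', hy'⟩ := hS1 x' hx'
        have h2 : x - x' = W * (y - y') := by rw [hy, hy']; ring
        have h3 : (W : 𝓞 K) * (y - y') ∈ 𝔭 := by
          rw [← h2]
          exact 𝔭.sub_mem (hSp x hx) (hSp x' hx')
        have h4 : y - y' ∈ 𝔭 := (h𝔭.mem_or_mem h3).resolve_left hW𝔭
        have h5 : y - y' ≠ 0 := by
          intro h5
          rw [h5, mul_zero, sub_eq_zero] at h2
          exact hxx h2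
        have h6 := hNRM.1 𝔭 (y - y') h4 h5
        have h7 : (x : K) - (x' : K) = ((W : ℕ) : K) * ((y - y' : 𝓞 K) : K) := by
          have h8 := congrArg (fun z : 𝓞 K => (z : K)) h2
          simpa using h8
        rw [h7, hNRM.2.2.1, nm_nat hNRM]
        exact mul_le_mul_of_nonneg_left h6 (by positivity))
  rw [Finset.card_image_of_injective _ hinj, hNRM.2.2.2.1] at h1
  refine h1.trans (le_of_eq ?_)
  congr 2
  rw [mul_pow, div_pow]
  field_simp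

end

/-- the numerical part for one prime -/
theorem pow_bd {C D Y : ℝ} {s : ℕ} (hC : 0 ≤ C) (hD : 0 ≤ D) (hY : 0 ≤ Y) :
    (C * (1 + D * Y)) ^ s ≤ (C * (1 + D)) ^ s + (C * (1 + D)) ^ s * Y ^ s := by
  rcases le_total Y 1 with h | h
  · have h1 : (C * (1 + D * Y)) ^ s ≤ (C * (1 + D)) ^ s := by
      refine pow_le_pow_left₀ (by positivity) ?_ s
      refine mul_le_mul_of_nonneg_left ?_ hC
      nlinarith
    have h2 : 0 ≤ (C * (1 + D)) ^ s * Y ^ s := by positivity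
    linarith
  · have h1 : (C * (1 + D * Y)) ^ s ≤ (C * (1 + D) * Y) ^ s := by
      refine pow_le_pow_left₀ (by positivity) ?_ s
      rw [mul_assoc]
      refine mul_le_mul_of_nonneg_left ?_ hC
      nlinarith
    rw [mul_pow (C * (1 + D)) Y s] at h1
    have h2 : 0 ≤ (C * (1 + D)) ^ s := by positivity
    linarith

open Classical in
theorem pf_SIE (K : Type) [Field K] [NumberField K] (hCLA : T_CLA K) (hLAT : T_LAT K)
    (hNRM : T_NRM K) (hIDS : T_IDS K) : T_SIE K := by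
  obtain ⟨c₀, L₁, hc₀, hCL⟩ := hCLA
  obtain ⟨C, hC, hLT⟩ := hLAT
  obtain ⟨I, hI, hI1, hI2, -⟩ := hIDS
  intro s hs
  have hd : 0 < dg K := Module.finrank_pos
  set E : ℝ := (C * (1 + 2 ^ dg K)) ^ s with hE
  have hE0 : 0 < E := by positivity
  have hc0s : 0 < c₀ ^ s := by positivity
  refine ⟨max (2 ^ dg K) ⌈4 * E * I / c₀ ^ s⌉₊, c₀ ^ s / 2, by positivity, ?_⟩
  intro W w κ hw hW hpr hκ
  have hw1 : 2 ^ dg K ≤ w := (le_max_left _ _).trans hw
  have hw2 : 4 * E * I / c₀ ^ s ≤ (w : ℝ) :=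
    (Nat.le_ceil _).trans (by exact_mod_cast (le_max_right _ _).trans hw)
  have hwpos : 1 ≤ w := le_trans Nat.one_le_two_pow hw1
  have hWr : (1 : ℝ) ≤ W := by exact_mod_cast hW
  refine ⟨max (max 1 (L₁ * W)) (4 * E * I * (κ + 1) ^ dg K * (W : ℝ) ^ (dg K * s) / c₀ ^ s), ?_⟩
  intro L hL ζ hζ hζκ a ha
  have hL1 : 1 ≤ L := (le_max_left _ _).trans ((le_max_left _ _).trans hL)
  have hL2 : L₁ * W ≤ L := (le_max_right _ _).trans ((le_max_left _ _).trans hL)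
  have hL3 : 4 * E * I * (κ + 1) ^ dg K * (W : ℝ) ^ (dg K * s) / c₀ ^ s ≤ L :=
    (le_max_right _ _).trans hL
  have hL0 : 0 < L := by linarith
  choose S hSc hSm using fun j => hCL W L (ζ j) (a j) hW hL2 (hζ j)
  obtain ⟨b, hb⟩ := lift_prm ha
  set X : Finset (Fin s → 𝓞 K) := Fintype.piFinset S with hX
  set Z : ℝ := (L / W) ^ dg K with hZ
  have hZ0 : 0 < Z := by positivity
  -- all vectors
  have hall : c₀ ^ s * Z ^ s ≤ (X.card : ℝ) := by
    rw [← mul_pow]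
    calc (c₀ * Z) ^ s = ∏ _j : Fin s, c₀ * Z := by simp
      _ ≤ ∏ j, ((S j).card : ℝ) :=
          Finset.prod_le_prod (fun _ _ => by positivity) fun j _ => hSc j
      _ = X.card := by
          rw [hX, Fintype.card_piFinset]
          push_cast
          rfl
  -- the vectors which are not primitive
  have hch : ∀ x : Fin s → 𝓞 K, ∃ 𝔭 : Ideal (𝓞 K), ¬ Prm x → 𝔭.IsMaximal ∧ ∀ j, x j ∈ 𝔭 := by
    intro x
    by_cases h : Prm x
    · exact ⟨⊤, fun h' => absurd h h'⟩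
    · obtain ⟨𝔭, h𝔭⟩ := exists_max h
      exact ⟨𝔭, fun _ => h𝔭⟩
  choose m hm using hch
  set B : Finset (Fin s → 𝓞 K) := X.filter fun x => ¬ Prm x with hB
  set P : Finset (Ideal (𝓞 K)) := B.image m with hP
  have hPm : ∀ 𝔭 ∈ P, 𝔭.IsMaximal ∧ 𝔭 ≠ ⊥ ∧ (W : 𝓞 K) ∉ 𝔭 ∧ w < Ideal.absNorm 𝔭 ∧
      (Ideal.absNorm 𝔭 : ℝ) ≤ ((κ + 1) * L) ^ dg K := by
    intro 𝔭 h𝔭
    rw [hP, Finset.mem_image] at h𝔭
    obtain ⟨x, hx, rfl⟩ := h𝔭
    rw [hB, Finset.mem_filter, hX, Fintype.mem_piFinset] at hx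
    obtain ⟨hx1, hx2⟩ := hx
    obtain ⟨hmx, hxm⟩ := hm x hx2
    have hxa : ∀ j, ∃ y : 𝓞 K, x j = a j + W * y := fun j => (hSm j (x j) (hx1 j)).1
    have h0 : m x ≠ ⊥ := Ring.ne_bot_of_isMaximal_of_not_isField hmx (RingOfIntegers.not_isField K)
    have h1 : (W : 𝓞 K) ∉ m x := by
      intro h1
      exact hmx.ne_top ((Ideal.eq_top_iff_one _).2 (class_top hb hxa h1 hxm))
    refine ⟨hmx, h0, h1, ?_, ?_⟩
    · by_contra h2
      exact h1 (hpr (m x) hmx.isPrime h0 (by omega))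
    · have hx0 : ∃ j, x j ≠ 0 := by
        by_contra h2
        push Not at h2
        refine not_unit hNRM hw1 hpr (class_top hb hxa (Ideal.mem_span_singleton_self _) ?_)
        intro j
        rw [h2 j]
        exact Ideal.zero_mem _
      obtain ⟨j, hj⟩ := hx0
      refine (hNRM.1 (m x) (x j) (hxm j) hj).trans ?_
      rw [← hNRM.2.2.2.1 ((κ + 1) * L)]
      unfold nm
      refine hNRM.2.2.2.2.2.1 _ _ (fun v => apply_nonneg v _) fun v => ?_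
      rw [← InfinitePlace.norm_embedding_eq]
      have h3 := (hSm j (x j) (hx1 j)).2 v
      have h4 := hζκ j v
      have h5 := norm_add_le (v.embedding (x j : K) - ζ j v) (ζ j v)
      rw [sub_add_cancel] at h5
      linarith
  have hsub : B ⊆ P.biUnion fun 𝔭 => Fintype.piFinset fun j => (S j).filter fun y => y ∈ 𝔭 := by
    intro x hx
    rw [Finset.mem_biUnion]
    refine ⟨m x, Finset.mem_image_of_mem m hx, ?_⟩
    rw [hB, Finset.mem_filter, hX, Fintype.mem_piFinset] at hx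
    rw [Fintype.mem_piFinset]
    intro j
    rw [Finset.mem_filter]
    exact ⟨hx.1 j, (hm x hx.2).2 j⟩
  have hone : ∀ 𝔭 ∈ P,
      ((Fintype.piFinset fun j => (S j).filter fun y => y ∈ 𝔭).card : ℝ) ≤
        E + E * Z ^ s * (1 / (Ideal.absNorm 𝔭 : ℝ) ^ s) := by
    intro 𝔭 h𝔭
    obtain ⟨hmax, h0, hWp, -, -⟩ := hPm 𝔭 h𝔭
    have h1 : ∀ j, (((S j).filter fun y => y ∈ 𝔭).card : ℝ) ≤
        C * (1 + 2 ^ dg K * (Z / (Ideal.absNorm 𝔭 : ℝ))) := by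
      intro j
      refine one_coord hNRM hLT hW hL0 _ (ζ := ζ j) (a := a j) ?_ ?_ hmax.isPrime h0 hWp ?_
      · intro x hx
        exact (hSm j x (Finset.mem_filter.1 hx).1).1
      · intro x hx
        exact (hSm j x (Finset.mem_filter.1 hx).1).2
      · intro x hx
        exact (Finset.mem_filter.1 hx).2
    have hY0 : 0 ≤ Z / (Ideal.absNorm 𝔭 : ℝ) := by positivity
    calc ((Fintype.piFinset fun j => (S j).filter fun y => y ∈ 𝔭).card : ℝ)
        = ∏ j, (((S j).filter fun y => y ∈ 𝔭).card : ℝ) := by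
          rw [Fintype.card_piFinset]
          push_cast
          rfl
      _ ≤ ∏ _j : Fin s, (C * (1 + 2 ^ dg K * (Z / (Ideal.absNorm 𝔭 : ℝ)))) :=
          Finset.prod_le_prod (fun _ _ => Nat.cast_nonneg _) fun j _ => h1 j
      _ = (C * (1 + 2 ^ dg K * (Z / (Ideal.absNorm 𝔭 : ℝ)))) ^ s := by simp
      _ ≤ E + E * (Z / (Ideal.absNorm 𝔭 : ℝ)) ^ s := pow_bd (by linarith) (by positivity) hY0
      _ = E + E * Z ^ s * (1 / (Ideal.absNorm 𝔭 : ℝ) ^ s) := by rw [div_pow]; ring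
  have hPc : (P.card : ℝ) ≤ I * ((κ + 1) * L) ^ dg K := by
    refine hI1 (((κ + 1) * L) ^ dg K) P ?_ fun 𝔭 h𝔭 => ⟨(hPm 𝔭 h𝔭).2.1, (hPm 𝔭 h𝔭).2.2.2.2⟩
    refine one_le_pow₀ ?_
    nlinarith
  have hsum : ∑ 𝔭 ∈ P, 1 / (Ideal.absNorm 𝔭 : ℝ) ^ s ≤ I / (w : ℝ) ^ (s - 1) :=
    hI2 s w P (by omega) hwpos fun 𝔭 h𝔭 => (hPm 𝔭 h𝔭).2.2.2.1
  have hwr : (1 : ℝ) ≤ w := by exact_mod_cast hwpos
  have hA1 : E * (I / (w : ℝ) ^ (s - 1)) ≤ c₀ ^ s / 4 := by
    have h1 : (w : ℝ) ≤ (w : ℝ) ^ (s - 1) := le_self_pow₀ hwr (by omega)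
    have h2 : 4 * E * I ≤ (w : ℝ) * c₀ ^ s := by
      rw [div_le_iff₀ hc0s] at hw2
      exact hw2
    have h3 : I / (w : ℝ) ^ (s - 1) ≤ I / w :=
      div_le_div_of_nonneg_left (by linarith) (by linarith) h1
    calc E * (I / (w : ℝ) ^ (s - 1)) ≤ E * (I / w) := mul_le_mul_of_nonneg_left h3 hE0.le
      _ = E * I / w := by ring
      _ ≤ c₀ ^ s / 4 := by
          rw [div_le_div_iff₀ (by linarith) (by norm_num)]
          linarith
  have hA2 : E * (I * ((κ + 1) * L) ^ dg K) ≤ c₀ ^ s / 4 * Z ^ s := by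
    have h1 : Z ^ s = L ^ (dg K * s) / (W : ℝ) ^ (dg K * s) := by
      rw [hZ, ← pow_mul, div_pow]
    have h2 : L ^ dg K * L ≤ L ^ (dg K * s) := by
      rw [← pow_succ]
      refine pow_le_pow_right₀ hL1 ?_
      nlinarith
    have hW0 : (0 : ℝ) < (W : ℝ) ^ (dg K * s) := by positivity
    rw [div_le_iff₀ hc0s] at hL3
    rw [h1, ← mul_div_assoc, le_div_iff₀ hW0, mul_pow]
    have h3 : E * (I * ((κ + 1) ^ dg K * L ^ dg K)) * (W : ℝ) ^ (dg K * s) =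
        (4 * E * I * (κ + 1) ^ dg K * (W : ℝ) ^ (dg K * s)) * L ^ dg K / 4 := by ring
    rw [h3]
    have h4 : (4 * E * I * (κ + 1) ^ dg K * (W : ℝ) ^ (dg K * s)) * L ^ dg K ≤
        L * c₀ ^ s * L ^ dg K := mul_le_mul_of_nonneg_right hL3 (by positivity)
    have h5 : L * c₀ ^ s * L ^ dg K = c₀ ^ s * (L ^ dg K * L) := by ring
    have h6 : c₀ ^ s * (L ^ dg K * L) ≤ c₀ ^ s * L ^ (dg K * s) :=
      mul_le_mul_of_nonneg_left h2 hc0s.le
    linarith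
  have hbad : (B.card : ℝ) ≤ c₀ ^ s / 2 * Z ^ s := by
    calc (B.card : ℝ)
        ≤ ((P.biUnion fun 𝔭 => Fintype.piFinset fun j => (S j).filter fun y => y ∈ 𝔭).card : ℝ) :=
          by exact_mod_cast Finset.card_le_card hsub
      _ ≤ ∑ 𝔭 ∈ P, ((Fintype.piFinset fun j => (S j).filter fun y => y ∈ 𝔭).card : ℝ) := by
          exact_mod_cast Finset.card_biUnion_le
      _ ≤ ∑ 𝔭 ∈ P, (E + E * Z ^ s * (1 / (Ideal.absNorm 𝔭 : ℝ) ^ s)) :=
          Finset.sum_le_sum hone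
      _ = E * P.card + E * Z ^ s * ∑ 𝔭 ∈ P, 1 / (Ideal.absNorm 𝔭 : ℝ) ^ s := by
          rw [Finset.sum_add_distrib, Finset.sum_const, nsmul_eq_mul, ← Finset.mul_sum]
          ring
      _ ≤ E * (I * ((κ + 1) * L) ^ dg K) + E * Z ^ s * (I / (w : ℝ) ^ (s - 1)) := by
          refine add_le_add (mul_le_mul_of_nonneg_left hPc hE0.le)
            (mul_le_mul_of_nonneg_left hsum (by positivity))
      _ = E * (I * ((κ + 1) * L) ^ dg K) + E * (I / (w : ℝ) ^ (s - 1)) * Z ^ s := by ring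
      _ ≤ c₀ ^ s / 4 * Z ^ s + c₀ ^ s / 4 * Z ^ s :=
          add_le_add hA2 (mul_le_mul_of_nonneg_right hA1 (by positivity))
      _ = c₀ ^ s / 2 * Z ^ s := by ring
  have hsplit : ((X.filter fun x => Prm x).card : ℝ) + (B.card : ℝ) = X.card := by
    rw [hB]
    exact_mod_cast Finset.card_filter_add_card_filter_not (s := X) (fun x => Prm x)
  refine ⟨X.filter fun x => Prm x, ?_, ?_⟩
  · rw [pow_mul]
    have h1 : c₀ ^ s / 2 * Z ^ s = c₀ ^ s * Z ^ s - c₀ ^ s / 2 * Z ^ s := by ring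
    rw [← hZ]
    linarith
  · intro x hx
    rw [Finset.mem_filter, hX, Fintype.mem_piFinset] at hx
    exact ⟨hx.2, fun j => (hSm j (x j) (hx.1 j)).1, fun j => (hSm j (x j) (hx.1 j)).2⟩

end Pool.Agent.H52.RK
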